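import Pool.Agent.Helper994_CO.Auto3

set_option autoImplicit false

/-!
# No automaton in a base `2 ^ u * 3 ^ v` separates two infinite orbits

Let `F` be a sequence with finite `b`-kernel (that is, a `b`-automatic sequence), where `b ≥ 2` has no
prime factor besides `2` and `3`, and suppose `F (f n) = F n` for all `n ≥ 1`, where `f` is the
permutation of the problem.  Then `F` is ultimately constant, and it takes its ultimate value at
every integer whose orbit is infinite.

Proof: moving residue classes modulo `2 ^ a * 3 ^ c` along `f` and its inverse shows that the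
sequences `n ↦ F (2 ^ a * 3 ^ c * n + r)` form a finite set; a pigeonhole, the density of the
numbers `3 ^ v / 2 ^ u` and the theorem of Fine and Wilf make `F` ultimately periodic; and the three
branches of `f` then make `F` ultimately constant.
-/

namespace Pool.Agent.Results.MP_05c0aa_nt.AutomaticInvariants

open Pool.Agent.Helper994_CO

theorem result {α : Type*} (b : ℕ) (hb : 2 ≤ b) (hb' : ∀ p : ℕ, p.Prime → p ∣ b → p = 2 ∨ p = 3)
    (F : ℕ → α) (hF : (bKernel b F).Finite) (hinv : ∀ n, 1 ≤ n → F (f n) = F n) :
    ∃ (N : ℕ) (c : α), (∀ n, N ≤ n → F n = c) ∧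
      ∀ a, 1 ≤ a → (∀ k, 1 ≤ k → f^[k] a ≠ a) → F a = c := by
  -- `b` is a product of powers of `2` and `3`
  obtain ⟨u, v, huv, hbe⟩ : ∃ u v : ℕ, 1 ≤ u + v ∧ b = 2 ^ u * 3 ^ v := by
    have hne : b ≠ 0 := by omega
    have hsub : b.primeFactors ⊆ {2, 3} := by
      intro p hp
      rw [Nat.mem_primeFactors] at hp
      simpa using hb' p hp.1 hp.2.1
    have h1 := Nat.prod_factorization_pow_eq_self hne
    have h2 : b.factorization.prod (fun p k => p ^ k) =
        ∏ p ∈ ({2, 3} : Finset ℕ), p ^ b.factorization p := by
      have hsub' : b.factorization.support ⊆ ({2, 3} : Finset ℕ) := hsub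
      exact Finsupp.prod_of_support_subset _ hsub' _ (fun i _ => pow_zero i)
    have h3 : ∏ p ∈ ({2, 3} : Finset ℕ), p ^ b.factorization p =
        2 ^ b.factorization 2 * 3 ^ b.factorization 3 := by
      rw [Finset.prod_insert (by norm_num), Finset.prod_singleton]
    refine ⟨b.factorization 2, b.factorization 3, ?_, ?_⟩
    · by_contra hcon
      have e2 : b.factorization 2 = 0 := by omega
      have e3 : b.factorization 3 = 0 := by omega
      rw [h2, h3, e2, e3] at h1
      simp at h1
      omega
    · rw [← h3, ← h2, h1]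
  subst hbe
  obtain ⟨N, c, hN⟩ := eventually_const hinv huv hF
  refine ⟨N, c, hN, fun a ha hinf => ?_⟩
  obtain ⟨k, hk⟩ := exists_large_iter hinf N
  rw [← inv_iter hinv ha k, hN _ hk]

end Pool.Agent.Results.MP_05c0aa_nt.AutomaticInvariants
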