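import Pool.Agent.Helper994_CO.Joins

set_option autoImplicit false

/-!
# A path of length at most `10 ^ 100` between two members of the list has a deep interior valley

`Pool.Agent.Helper994_CO.f` is the permutation of the problem and `Pool.Agent.Helper994_CO.L` is the
list of the problem.  If `f^[k] a = b` with `a`, `b` in the list (equal or not) and
`1 ≤ k ≤ 10 ^ 100`, then the path from `a` to `b` climbs above `10 ^ 211`, comes back to a value at most
`10 ^ 10 * (j - i) ^ 2` and climbs above `10 ^ 211` again.  The proof runs both half-orbits of each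
member of the list to the height `10 ^ 211` in the kernel, and then applies the reduction of Baker and
Davenport to the inhomogeneous linear forms
`m * log 3 - A * log 2 - log (Q / P)` for the `2500` pairs of exit values `P`, `Q`, for all
`m ≤ 10 ^ 100`, with certified values of the logarithms.
-/

namespace Pool.Agent.Results.MP_05c0aa_nt.DeepValleyJoins

open Pool.Agent.Helper994_CO

theorem result : ∀ a ∈ L, ∀ b ∈ L, ∀ k : ℕ, 1 ≤ k → k ≤ 10 ^ 100 → f^[k] a = b →
    ∃ i t j : ℕ, i < t ∧ t < j ∧ j ≤ k ∧ 10 ^ 211 < f^[i] a ∧ 10 ^ 211 < f^[j] a ∧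
      f^[t] a ≤ 10 ^ 10 * (j - i) ^ 2 ∧
      1 / (10 ^ 10 * ((j : ℝ) - i)) ≤ ∑ s ∈ Finset.Ico i j, 1 / ((f^[s] a : ℕ) : ℝ) :=
  fun _ ha _ hb _ hk hk2 h => valley ha hb hk hk2 h

end Pool.Agent.Results.MP_05c0aa_nt.DeepValleyJoins
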