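import Pool.Agent.Helper994_CO.Near

set_option autoImplicit false

/-!
# Near integers are joined by short paths only with few exceptions

For every `η, ε > 0` there are `δ > 0` and `C` such that for every `N` at most `C N ^ ε` integers
`n ≤ N` are joined by a path of `f` (forward or backward) of a length between `1` and `N ^ δ` to an
integer `m` with `|m - n| ≤ n ^ (1 - η)`; here `m = n` (a short cycle) counts as well.

Along a path of length `k` with all terms at least `Y` the logarithm changes by
`k log 3 - A log 2 + O(k / Y)`, and `|k log 3 - A log 2|` is at least `c / k ^ 13` by the measure of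
linear independence of `log 2` and `log 3` proved in `Pool.Agent.H319R2.Measure`.  So a short path
between near integers has a term below `N ^ (15 δ)`, and only `O(N ^ (16 δ))` integers have such a term
within the distance `N ^ δ` on their orbit.
-/

namespace Pool.Agent.Results.MP_05c0aa_nt.NearIntegersApart

open Pool.Agent.Helper994_CO

theorem result : ∀ η ε : ℝ, 0 < η → 0 < ε → ∃ δ : ℝ, 0 < δ ∧ ∃ C : ℝ, ∀ N : ℕ, 1 ≤ N →
    ({n : ℕ | 1 ≤ n ∧ n ≤ N ∧ ∃ m k : ℕ, 1 ≤ k ∧ (k : ℝ) ≤ (N : ℝ) ^ δ ∧
      |(m : ℝ) - n| ≤ (n : ℝ) ^ (1 - η) ∧ (f^[k] n = m ∨ f^[k] m = n)}.ncard : ℝ) ≤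
      C * (N : ℝ) ^ ε :=
  fun η ε hη hε => near_main η ε hη hε

end Pool.Agent.Results.MP_05c0aa_nt.NearIntegersApart
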