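import Pool.Agent.Helper994_CO.Trunc6

set_option autoImplicit false

/-!
# The density of the integers that are least in their truncated orbit

Let `TruncMin c n` say that `n` is the least positive integer which a path of `f`, forward or
backward and with all terms at most `n ^ (1 + c)`, joins to `n`.  Two such integers `a < b` are never
joined by a path below the height `b ^ (1 + c)`.  For every `0 < c ≤ 1 / 50` these integers have the
same natural density `κ`, and `0.04977 < κ < 0.04978`.  As the least element of an orbit has the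
property, for every `ε > 0` at most `(κ + ε) N` orbits meet `[1, N]` for all large `N`.

The constant is a product `κ₊ κ₋`: `κ₊` is the probability that a walk with the steps `log (3 / 2)`,
`log (3 / 4)` (probability one half each) stays positive, `κ₋` that a walk with the steps `log (2 / 3)`
(probability one third) and `log (4 / 3)` (probability two thirds) stays positive; the numerical
bounds come from `640` and `320` steps of the two recursions, run in the kernel, and the martingale
bound for the rest.
-/

namespace Pool.Agent.Results.MP_05c0aa_nt.TruncatedMinimaDensity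

open Pool.Agent.Helper994_CO Filter Topology

theorem result : ∃ κ : ℝ, 0.04977 < κ ∧ κ < 0.04978 ∧
    (∀ c : ℝ, 0 < c → c ≤ 1 / 50 →
      Tendsto (fun N : ℕ => ({n : ℕ | 1 ≤ n ∧ n ≤ N ∧ TruncMin c n}.ncard : ℝ) / N) atTop (𝓝 κ)) ∧
    (∀ ε : ℝ, 0 < ε → ∃ N0 : ℕ, ∀ N, N0 ≤ N → ((orb '' Set.Icc 1 N).ncard : ℝ) ≤ (κ + ε) * N) := by
  refine ⟨kap, lt_kap, kap_lt, fun c hc hc' => tendsto_cnt hc hc', fun ε hε => ?_⟩
  have h := tendsto_cnt (c := 1 / 50) (by norm_num) le_rfl
  have h1 : ∀ᶠ N : ℕ in atTop, (cnt (1 / 50) N : ℝ) / N < kap + ε :=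
    h.eventually (gt_mem_nhds (by linarith))
  obtain ⟨N0, hN0⟩ := eventually_atTop.1 (h1.and (eventually_ge_atTop 1))
  refine ⟨N0, fun N hN => ?_⟩
  obtain ⟨h2, h3⟩ := hN0 N hN
  have hNR : (0 : ℝ) < N := by exact_mod_cast h3
  rw [div_lt_iff₀ hNR] at h2
  have h4 : ((orb '' Set.Icc 1 N).ncard : ℝ) ≤ cnt (1 / 50) N := by
    exact_mod_cast orbits_le (1 / 50) N
  linarith

end Pool.Agent.Results.MP_05c0aa_nt.TruncatedMinimaDensity
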